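import Pool.Agent.T2h78.TF.Depth

/-!
# Torsion-free tensor squares and reflexivity: projective dimension one, depth one, rank one

Let `R` be a Noetherian local ring and `M` a module with a finite free resolution (that is, finitely
generated of finite projective dimension) such that `M ⊗ M` is torsion-free. Then `M` is reflexive if

* the projective dimension of `M` is at most `1` (`R` arbitrary), or
* the depth of `R` is at most `1` (`M` arbitrary), or
* `M` has rank one, for example if `M` is an ideal (`R` and the projective dimension arbitrary);

in the last two cases `M` is even free.

The proof is elementary. Let `0 → F₁ → F₀ → M → 0` be a free resolution, `A` the matrix of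
`F₁ → F₀`. If `N` is a module with an element `c` whose annihilator is a prime `P`, and `A` acts injectively
on the powers of `N`, then `A` is injective modulo `P`, and over the field of fractions of `R / P` one finds
`δ` outside `P` and `B` with `B A = δ` (`left_inverse'`). For `N = R` this and prime avoidance give such a
`δ` which is not a zero divisor. Hence `Tor₁(M, M / T) = 0` for the torsion submodule `T` of `M`, since it is
torsion and embeds into a torsion-free module; so `T ⊗ M` embeds into `M ⊗ M` and is zero, and `T = 0` by
Nakayama. Now let `C` be the cokernel of the injective map `M → M**`. In the same way `Tor₁(M, M**) = 0`,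
and so the torsion module `Tor₁(M, C)` embeds into `M ⊗ M` and is zero: `A` acts injectively on the powers
of `C`. If `C` is not zero, it has an element `c` with a prime annihilator `P`, and there are `δ` outside `P`
and `B` with `B A = δ`; this gives `δ C = 0`, a contradiction. If the depth of `R` is at most `1`, every
torsion-free module with a finite free resolution is free: it is enough to consider resolutions of length one,
and there the matrix is injective modulo the maximal ideal, by a look at the socle of `R` or of `R / s`. If
`M` has rank one, the elements `x ⊗ y - y ⊗ x` are torsion, hence zero, and `M` is cyclic.
-/

set_option autoImplicit false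

universe u

namespace Pool.Agent.Results.MP_fd997c_al.ShortResolutions

open Pool.Agent.T2h78.TF TensorProduct

/-- **Main theorem.** -/
theorem result (R : Type u) [CommRing R] [IsNoetherianRing R] [IsLocalRing R]
    (M : Type u) [AddCommGroup M] [Module R M]
    -- `M` has a free resolution of length `k`
    (k : ℕ) (hM : HasFreeRes R k M)
    -- the tensor square is torsion-free
    (hT : Module.IsTorsionFree R (M ⊗[R] M))
    -- `pd M ≤ 1`, or `depth R ≤ 1`, or `M` has rank one
    (h : k ≤ 1 ∨ DepthLeOne R ∨ RankOne R M) :
    Module.IsReflexive R M ∧ (DepthLeOne R ∨ RankOne R M → Module.Free R M) :=
  main M k hM h hT

end Pool.Agent.Results.MP_fd997c_al.ShortResolutions
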